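import Pool.Agent.Work.MP_8d13b5_lc.Fm.FamilyReductionProof

set_option autoImplicit false

namespace Pool.Agent.Results.MP_8d13b5_lc.FamilyReduction

open Pool.Agent.Work.MP_8d13b5_lc.Fm.FamilyReduction Polynomial

/-- **Every one-parameter family of linear recurrences reduces to one recurrence.** Let `F(t, X)` be
an arbitrary family. There are `N`, `T₀`, `c`, a monic integer polynomial `f`, `f(0) ≠ 0`, and integer
polynomials `W_(q,i)` in `d + 2` variables with the following properties.

(1) Let `t` be rational of height `T ≥ T₀`, `v` a solution of the recurrence of `F(t, X)` with integer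
initial values `z_0, ..., z_(d-1)`, and `q < N`. Let `w` be the solution of the recurrence of `f` with
the initial values `w_i = W_(q,i)(num t, den t, z_0, ..., z_(d-1))`, `i < deg f` (this formula is then true
for all `i`). If `w_n = 0` then `v_(q + N n) = 0`. Conversely if `v_(q + N n) = 0` and
`T ^ n > (B T) ^ c`, where `B` bounds the `|z_i|`, then `w_n = 0`.

(2) One primitive recursive function computes from `z_0, ..., z_(d-1)` and `t` of height `≥ T₀` a bit and
finitely many lists `l` of `deg f` integers such that `v` has a zero if and only if the bit is `1` or,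
for one of the lists, the solution of the recurrence of `f` with the initial values `l` has a zero.

(3) If the Skolem Problem is decidable for finitely many single recurrences, namely for the recurrence
of `f` and for the members `F(t, X)` with `F_0(t) ≠ 0` of height `< T₀`, then it is decidable for the whole
family. -/
theorem result (d : ℕ) (F : ℤ[X][X]) (hF : Fam d F) :
    ∃ (N T₀ c : ℕ) (f : ℤ[X]) (W : ℕ → ℕ → MvPolynomial (Fin (d + 2)) ℤ),
      1 ≤ N ∧ f.Monic ∧ f.coeff 0 ≠ 0 ∧
      (∀ t : ℚ, T₀ ≤ height t → ∀ (z : ℕ → ℤ) (v : ℕ → ℚ), (∀ i < d, v i = z i) → Rec F t v →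
        ∀ q < N, ∃ w : ℕ → ℤ, RecZ f w ∧ (∀ i, w i = MvPolynomial.eval (pt d t z) (W q i)) ∧
          (∀ n, w n = 0 → v (q + N * n) = 0) ∧
          ∀ B : ℕ, Bound d B z → ∀ n, (B * height t) ^ c < height t ^ n →
            v (q + N * n) = 0 → w n = 0) ∧
      (∃ R : List ℤ × (ℤ × ℤ) → Bool × List (List ℤ), Primrec R ∧
        ∀ t : ℚ, T₀ ≤ height t → ∀ x : List ℤ, x.length = d →
          (∀ l ∈ (R (x, (t.num, (t.den : ℤ)))).2, l.length = f.natDegree) ∧
          (ZeroQ F t x ↔ (R (x, (t.num, (t.den : ℤ)))).1 = true ∨
            ∃ l ∈ (R (x, (t.num, (t.den : ℤ)))).2, ZeroZ f l)) ∧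
      (Skolem f → (∀ t : ℚ, height t < T₀ → aeval t (F.coeff 0) ≠ 0 → SkolemAt F t) →
        SkolemAll F) :=
  main d F hF

end Pool.Agent.Results.MP_8d13b5_lc.FamilyReduction
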