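import Pool.Agent.Work.MP_8d13b5_lc.Algo
import Pool.Agent.Work.MP_8d13b5_lc.Initial
import Pool.Agent.Work.MP_8d13b5_lc.Family

set_option autoImplicit false

namespace Pool.Agent.Results.MP_8d13b5_lc.GenericFamily

open Filter Topology

open Classical in
/-- **Generic decidability of the Skolem Problem in families of simple sequences.**
There is one algorithm `A` (it may fail to halt), acting on the data `((c_1, …, c_d), (u_0, …, u_{d-1}))`, whose
answers are always right (`true`: the sequence has a zero; `false`: some modulus `m ≥ 2` divides no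
term), which finds every zero and every modulus of this kind, and such that for *every* simple
recurrence (`d ≥ 1`, `c_d ≠ 0`, separable characteristic polynomial)
(1) `A` halts with `false`, and a prime modulus does the job, for a proportion of the initial data
in `[-H, H]^d` tending to `1`;
(2) more generally, if `v` and `w_0, …, w_m` are initial data of solutions of the recurrence such
that, for all primes `p` outside a finite set, there is no `n` for which `p` divides the `n`-th terms
of all of these solutions, then `A` halts with `false`, and a prime modulus does the job, for a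
proportion of the parameters `t` in `[-H, H]^(m+1)` tending to `1`, on the initial data
`v + t_0 w_0 + … + t_m w_m`. -/
theorem result :
    ∃ A : List ℤ × List ℤ →. Bool, Partrec A ∧
      (∀ (E : LinearRecurrence ℤ) (v : Fin E.order → ℤ), 0 < E.order →
        (true ∈ A ((List.ofFn E.coeffs).reverse, List.ofFn v) ↔ ∃ n, E.mkSol v n = 0) ∧
        (false ∈ A ((List.ofFn E.coeffs).reverse, List.ofFn v) ↔
          ∃ m : ℕ, 2 ≤ m ∧ ∀ n, ¬ (m : ℤ) ∣ E.mkSol v n)) ∧
      ∀ (E : LinearRecurrence ℤ) (hd : 0 < E.order), E.coeffs ⟨0, hd⟩ ≠ 0 →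
        (E.charPoly.map (Int.castRingHom ℚ)).Separable →
        Tendsto (fun H : ℕ =>
          (((Fintype.piFinset fun _ : Fin E.order => Finset.Icc (-(H : ℤ)) H).filter
            (fun v => false ∈ A ((List.ofFn E.coeffs).reverse, List.ofFn v) ∧
              ∃ p : ℕ, p.Prime ∧ ∀ n, ¬ (p : ℤ) ∣ E.mkSol v n)).card : ℝ) /
            (2 * (H : ℝ) + 1) ^ E.order) atTop (𝓝 1) ∧
        ∀ (m : ℕ) (v : Fin E.order → ℤ) (w : Fin (m + 1) → Fin E.order → ℤ),
          {p : ℕ | p.Prime ∧ ∃ n, (p : ℤ) ∣ E.mkSol v n ∧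
            ∀ j, (p : ℤ) ∣ E.mkSol (w j) n}.Finite →
          Tendsto (fun H : ℕ =>
            (((Fintype.piFinset fun _ : Fin (m + 1) => Finset.Icc (-(H : ℤ)) H).filter
              (fun t => false ∈ A ((List.ofFn E.coeffs).reverse,
                  List.ofFn (v + ∑ j, t j • w j)) ∧
                ∃ p : ℕ, p.Prime ∧ ∀ n, ¬ (p : ℤ) ∣
                  E.mkSol (v + ∑ j, t j • w j) n)).card : ℝ) /
              (2 * (H : ℝ) + 1) ^ (m + 1)) atTop (𝓝 1) := by
  refine ⟨Pool.Agent.Work.MP_8d13b5_lc.search, Pool.Agent.Work.MP_8d13b5_lc.partrec_search,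
    fun E v hd => Pool.Agent.Work.MP_8d13b5_lc.search_code E hd v, ?_⟩
  intro E hd h0 hs
  have key : ∀ (k : ℕ) (g : (Fin k → ℤ) → (Fin E.order → ℤ)),
      Tendsto (fun H : ℕ => (((Pool.Agent.Work.MP_8d13b5_lc.box k H).filter
        (fun t => ¬ ∃ p : ℕ, p.Prime ∧ ∀ n, ¬ (p : ℤ) ∣ E.mkSol (g t) n)).card : ℝ) /
        ((2 * (H : ℝ) + 1) ^ k)) atTop (𝓝 0) →
      Tendsto (fun H : ℕ =>
          (((Fintype.piFinset fun _ : Fin k => Finset.Icc (-(H : ℤ)) H).filter
            (fun t => false ∈ Pool.Agent.Work.MP_8d13b5_lc.search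
                ((List.ofFn E.coeffs).reverse, List.ofFn (g t)) ∧
              ∃ p : ℕ, p.Prime ∧ ∀ n, ¬ (p : ℤ) ∣ E.mkSol (g t) n)).card : ℝ) /
            (2 * (H : ℝ) + 1) ^ k) atTop (𝓝 1) := by
    intro k g hbad
    have h1 := hbad.const_sub 1
    rw [sub_zero] at h1
    refine h1.congr fun H => ?_
    have hpos : (0 : ℝ) < (2 * (H : ℝ) + 1) ^ k := by positivity
    rw [eq_div_iff hpos.ne', sub_mul, one_mul, div_mul_cancel₀ _ hpos.ne', sub_eq_iff_eq_add]
    have hcard := Pool.Agent.Work.MP_8d13b5_lc.card_box k H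
    have hfilt := Finset.card_filter_add_card_filter_not
      (s := Pool.Agent.Work.MP_8d13b5_lc.box k H)
      (fun t => ∃ p : ℕ, p.Prime ∧ ∀ n, ¬ (p : ℤ) ∣ E.mkSol (g t) n)
    rw [hcard] at hfilt
    have hsame : ((Fintype.piFinset fun _ : Fin k => Finset.Icc (-(H : ℤ)) H).filter
              (fun t => false ∈ Pool.Agent.Work.MP_8d13b5_lc.search
                  ((List.ofFn E.coeffs).reverse, List.ofFn (g t)) ∧
                ∃ p : ℕ, p.Prime ∧ ∀ n, ¬ (p : ℤ) ∣ E.mkSol (g t) n)) =
        (Pool.Agent.Work.MP_8d13b5_lc.box k H).filter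
          (fun t => ∃ p : ℕ, p.Prime ∧ ∀ n, ¬ (p : ℤ) ∣ E.mkSol (g t) n) := by
      apply Finset.filter_congr
      intro t _
      constructor
      · exact fun h => h.2
      · rintro ⟨p, hp, h⟩
        exact ⟨(Pool.Agent.Work.MP_8d13b5_lc.search_code E hd (g t)).2.2 ⟨p, hp.two_le, h⟩,
          p, hp, h⟩
    rw [hsame]
    have : ((2 * H + 1 : ℕ) : ℝ) ^ k = (2 * (H : ℝ) + 1) ^ k := by push_cast; rfl
    rw [← this, ← Nat.cast_pow, ← hfilt]
    push_cast
    ring
  refine ⟨?_, fun m v w hfin => ?_⟩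
  · have := Pool.Agent.Work.MP_8d13b5_lc.tendsto_bad_initial E hd h0 hs
    exact key E.order (fun v => v) this
  · have := Pool.Agent.Work.MP_8d13b5_lc.tendsto_bad_family E hd h0 hs v w hfin
    exact key (m + 1) (fun t => v + ∑ j, t j • w j) this

end Pool.Agent.Results.MP_8d13b5_lc.GenericFamily
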