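import Pool.Agent.Work.MP_8d13b5_lc.Qu.Main

set_option autoImplicit false

namespace Pool.Agent.Results.MP_8d13b5_lc.IsolatedZeros

open Finset Pool.Agent.Work.MP_8d13b5_lc Pool.Agent.Work.MP_8d13b5_lc.US
  Pool.Agent.Work.MP_8d13b5_lc.Qu

/-- `u` is the linear recurrence sequence with the data `x = (c_1, …, c_d; u_0, …, u_{d-1})`,
`d ≥ 1`, `c_d ≠ 0` -/
def IsLRS (x : List ℤ × List ℤ) (u : ℕ → ℤ) : Prop :=
  x.1.length = x.2.length ∧ 1 ≤ x.1.length ∧ x.1.getD (x.1.length - 1) 0 ≠ 0 ∧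
    (∀ i, i < x.1.length → u i = x.2.getD i 0) ∧
    ∀ n : ℕ, u (n + x.1.length) =
      ∑ j ∈ Finset.range x.1.length, x.1.getD j 0 * u (n + x.1.length - 1 - j)

/-- `n` is a zero of `u` which lies in no infinite arithmetic progression of zeros -/
def Isolated (u : ℕ → ℤ) (n : ℕ) : Prop :=
  u n = 0 ∧ ∀ T, 0 < T → ∃ k, u (n + k * T) ≠ 0

/-- the isolated zeros of all sequences with data of complexity at most `t`; the Skolem Problem
asks for an algorithm computing this (finite) set -/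
def Z (t : ℕ) : Set ℕ := {n | ∃ x u, IsLRS x u ∧ cx x ≤ t ∧ Isolated u n}

/-- the indices `n` which are isolated zeros of some sequence of complexity `t` with `g t ≤ n` -/
def E (g : ℕ → ℕ) : Set ℕ := {n | ∃ t, g t ≤ n ∧ n ∈ Z t}

theorem val_of_IsLRS {x : List ℤ × List ℤ} {u : ℕ → ℤ} (h : IsLRS x u) :
    valid x ∧ ∀ n, u n = val x n :=
  ⟨⟨h.1, h.2.1, h.2.2.1⟩, fun n => eq_val x ⟨h.1, h.2.1, h.2.2.1⟩ u h.2.2.2.1 h.2.2.2.2 n⟩

theorem isLRS_val {x : List ℤ × List ℤ} (h : valid x) : IsLRS x (val x) :=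
  ⟨h.1, h.2.1, h.2.2, fun i hi => val_init x h i hi, fun n => val_rec x h n⟩

theorem mem_Z_iff (t n : ℕ) : n ∈ Z t ↔ ∃ x : Code, valid x ∧ cx x ≤ t ∧ Exc x n := by
  constructor
  · rintro ⟨x, u, hu, hc, h0, hT⟩
    obtain ⟨hv, he⟩ := val_of_IsLRS hu
    refine ⟨x, hv, hc, (exc_iff x hv n).2 ⟨?_, ?_⟩⟩
    · rw [← he]
      exact h0
    · intro T hT0
      obtain ⟨k, hk⟩ := hT T hT0
      exact ⟨k, by rw [← he]; exact hk⟩
  · rintro ⟨x, hv, hc, hex⟩
    exact ⟨x, val x, isLRS_val hv, hc, (exc_iff x hv n).1 hex⟩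

theorem mem_E_iff (g : ℕ → ℕ) (hm : Monotone g) (n : ℕ) : n ∈ E g ↔ n ∉ SG g := by
  constructor
  · rintro ⟨t, hle, hn⟩ hcon
    obtain ⟨x, hv, hc, hex⟩ := (mem_Z_iff t n).1 hn
    exact hcon x hv ((hm hc).trans hle) hex
  · intro h
    have h3 : ¬ ∀ x : Code, valid x → g (cx x) ≤ n → ¬ Exc x n := h
    push Not at h3
    obtain ⟨x, hx, hle, hex⟩ := h3
    exact ⟨cx x, hle, (mem_Z_iff _ n).2 ⟨x, hx, le_rfl, hex⟩⟩

theorem ncard_le (A : Set ℕ) (N : ℕ) (h : ∀ W : Finset ℕ, (∀ n ∈ W, n ∈ A) → W.card ≤ N) :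
    A.Finite ∧ A.ncard ≤ N := by
  have hfin : A.Finite := by
    by_contra hinf
    obtain ⟨W, hW1, hW2⟩ := Set.Infinite.exists_subset_card_eq hinf (N + 1)
    have := h W (fun n hn => hW1 hn)
    omega
  refine ⟨hfin, ?_⟩
  rw [Set.ncard_eq_toFinset_card A hfin]
  exact h _ (fun n hn => (Set.Finite.mem_toFinset hfin).1 hn)

/-- **Isolated zeros of linear recurrence sequences.** Let `Z t` be the set of all isolated zeros of
all integer linear recurrence sequences (all orders) of complexity `s + d (log₂ s + 1) ≤ t`, where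
`d` is the order and `s` the bit size of the data. It has at most `2 ^ (9 t)` elements, and it
contains all `n` with `4 log₂ n + 30 ≤ t`. For every computable monotone `g` with
`g t ≥ 2 ^ (10 t)` the set `E g` of the `n` in some `Z t`, `g t ≤ n`, is decidable, at most
`2 ^ (9 t)` of its elements are below `g (t + 1)`, and the Skolem Problem restricted to the indices
outside `E g` is decidable. -/
theorem result :
    (∀ t, (Z t).Finite ∧ (Z t).ncard ≤ 2 ^ (9 * t)) ∧
    (∀ n t, 4 * Nat.log 2 n + 30 ≤ t → n ∈ Z t) ∧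
    ∀ g : ℕ → ℕ, Computable g → Monotone g → (∀ t, 2 ^ (10 * t) ≤ g t) →
      ComputablePred (fun n => n ∈ E g) ∧
      (∀ t, {n | n < g (t + 1) ∧ n ∈ E g}.ncard ≤ 2 ^ (9 * t)) ∧
      ComputablePred (fun x : List ℤ × List ℤ => ∃ u, IsLRS x u ∧ ∃ n, n ∉ E g ∧ u n = 0) := by
  classical
  refine ⟨?_, ?_, ?_⟩
  · intro t
    apply ncard_le
    intro W hW
    exact card_all t W (fun n hn => (mem_Z_iff t n).1 (hW n hn))
  · intro n t ht
    obtain ⟨x, hv, hc, hval⟩ := exists_small n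
    refine ⟨x, val x, isLRS_val hv, hc.trans ht, ?_, ?_⟩
    · rw [hval, sub_self]
    · intro T hT
      refine ⟨1, ?_⟩
      rw [hval]
      push_cast
      omega
  · intro g hg hm hlow
    refine ⟨⟨fun _ => Classical.propDecidable _, ?_⟩, ?_, ⟨fun _ => Classical.propDecidable _, ?_⟩⟩
    · refine (Primrec.not.to_comp.comp (computable_SG hg hm hlow)).of_eq fun n => ?_
      rw [Bool.eq_iff_iff]
      simp [mem_E_iff g hm]
    · intro t
      refine (ncard_le _ _ ?_).2
      intro W hW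
      apply card_SG hm t W
      intro n hn
      obtain ⟨h1, h2⟩ := hW n hn
      exact ⟨h1, (mem_E_iff g hm n).1 h2⟩
    · have h1 : Computable (fun x : List ℤ × List ℤ => (decide (valid x) && DQ g x)) :=
        Primrec.and.to_comp.comp primrec_valid.decide.to_comp (computable_DQ hg hm hlow)
      refine h1.of_eq fun x => ?_
      rw [Bool.eq_iff_iff, Bool.and_eq_true, decide_eq_true_eq]
      refine Iff.trans ?_ (@decide_eq_true_iff _ (Classical.propDecidable _)).symm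
      constructor
      · rintro ⟨hv, hD⟩
        obtain ⟨n, hn, h0⟩ := (DQ_spec hm hlow x hv).1 hD
        refine ⟨val x, isLRS_val hv, n, ?_, h0⟩
        rw [mem_E_iff g hm, not_not]
        exact hn
      · rintro ⟨u, hu, n, hn, h0⟩
        obtain ⟨hv, he⟩ := val_of_IsLRS hu
        refine ⟨hv, (DQ_spec hm hlow x hv).2 ⟨n, ?_, ?_⟩⟩
        · rw [mem_E_iff g hm, not_not] at hn
          exact hn
        · rw [← he]
          exact h0

end Pool.Agent.Results.MP_8d13b5_lc.IsolatedZeros
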