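import Pool.Agent.Work.MP_8d13b5_lc.Rk.Code

set_option autoImplicit false

namespace Pool.Agent.Results.MP_8d13b5_lc.RatioRank

open Pool.Agent.Work.MP_8d13b5_lc Pool.Agent.Work.MP_8d13b5_lc.US
  Pool.Agent.Work.MP_8d13b5_lc.Rk

/-- **The Skolem Problem for sequences of ratio rank at most two.** There is `k` such that, with
`N p = tow k (size p)` (a `k`-fold iterated exponential of the size of the data `p`), the following
holds for every integer linear recurrence sequence `u` with data `p = (c, u_0..u_{d-1})` such that
(a) the quotients of the characteristic roots of `u` lie, up to torsion, in a group generated by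
two complex numbers, or
(b) `u` is nondegenerate and for some place `v` of the splitting field of the characteristic
polynomial any two quotients of `v`-dominant characteristic roots are multiplicatively dependent:
there is `0 < T ≤ N p` such that `u` vanishes identically on the residue class modulo `T` of every
zero `n ≥ N p`. Moreover `N` is primitive recursive, and a primitive recursive predicate decides
for all these sequences whether they have a zero. -/
theorem result :
    ∃ k : ℕ, Primrec (fun p : List ℤ × List ℤ => tow k (size p)) ∧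
      (∀ (p : List ℤ × List ℤ) (u : ℕ → ℤ), p.1.length = p.2.length → 1 ≤ p.1.length →
        p.1.getD (p.1.length - 1) 0 ≠ 0 → (∀ i, i < p.1.length → u i = p.2.getD i 0) →
        (∀ n : ℕ, u (n + p.1.length) =
          ∑ j ∈ Finset.range p.1.length, p.1.getD j 0 * u (n + p.1.length - 1 - j)) →
        (RankTwo u ∨ DomRankOne (SF (charPoly p.1)) u) →
          ∃ T, 0 < T ∧ T ≤ tow k (size p) ∧
            ∀ n, tow k (size p) ≤ n → u n = 0 → ∀ i, u (n % T + i * T) = 0) ∧
      ∃ D : List ℤ × List ℤ → Bool, Primrec D ∧
        ∀ (p : List ℤ × List ℤ) (u : ℕ → ℤ), p.1.length = p.2.length → 1 ≤ p.1.length →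
          p.1.getD (p.1.length - 1) 0 ≠ 0 → (∀ i, i < p.1.length → u i = p.2.getD i 0) →
          (∀ n : ℕ, u (n + p.1.length) =
            ∑ j ∈ Finset.range p.1.length, p.1.getD j 0 * u (n + p.1.length - 1 - j)) →
          (RankTwo u ∨ DomRankOne (SF (charPoly p.1)) u) →
            (D p = true ↔ ∃ n, u n = 0) := by
  classical
  obtain ⟨B, ⟨k, hk⟩, H⟩ := main_rank
  have hN : Primrec (fun p : List ℤ × List ℤ => tow k (size p)) :=
    (primrec_tow k).comp primrec_size
  have key : ∀ (p : List ℤ × List ℤ) (u : ℕ → ℤ), p.1.length = p.2.length → 1 ≤ p.1.length →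
      p.1.getD (p.1.length - 1) 0 ≠ 0 → (∀ i, i < p.1.length → u i = p.2.getD i 0) →
      (∀ n : ℕ, u (n + p.1.length) =
        ∑ j ∈ Finset.range p.1.length, p.1.getD j 0 * u (n + p.1.length - 1 - j)) →
      (RankTwo u ∨ DomRankOne (SF (charPoly p.1)) u) →
        ∃ T, 0 < T ∧ T ≤ tow k (size p) ∧
          ∀ n, tow k (size p) ≤ n → u n = 0 → ∀ i, u (n % T + i * T) = 0 := by
    intro p u h1 h2 h3 hu1 hu2 hgood
    have c0 : (charPoly p.1).coeff 0 ≠ 0 := by
      rw [charPoly_coeff, if_neg (by omega), if_pos (by omega), Nat.sub_zero, zero_sub]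
      exact neg_ne_zero.2 h3
    have cd : (charPoly p.1).natDegree ≤ size p := by
      rw [charPoly_natDegree]
      unfold size
      omega
    have cu : ∀ i < (charPoly p.1).natDegree, |u i| ≤ size p := by
      intro i hi
      rw [charPoly_natDegree] at hi
      rw [hu1 i hi, Int.abs_eq_natAbs]
      have h4 := natAbs_getD_le p.2 i
      have h5 : (p.2.getD i 0).natAbs ≤ size p := by unfold size; omega
      exact_mod_cast h5
    obtain ⟨T, hT0, hTB, hT⟩ := H (size p) (charPoly p.1) (charPoly_monic _) c0 cd
      (charPoly_coeff_le p h2) u cu (annih_charPoly p.1 u hu2) hgood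
    exact ⟨T, hT0, hTB.trans (hk _), fun n hn => hT n ((hk _).trans hn)⟩
  refine ⟨k, hN, key, fun p => decide (∃ n < tow k (size p), val p n = 0), ?_, ?_⟩
  · have hR : PrimrecRel (fun (m : ℕ) (p : Code) => val p m = 0) :=
      Primrec.eq.comp (primrec_val.comp Primrec.snd Primrec.fst) (Primrec.const 0)
    exact ((rel_exists_lt hR).comp hN Primrec.id).decide.of_eq fun p => by simp
  · intro p u h1 h2 h3 hu1 hu2 hgood
    have huv : u = val p := funext (eq_val p ⟨h1, h2, h3⟩ u hu1 hu2)
    rw [decide_eq_true_eq]
    constructor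
    · rintro ⟨n, _, hn⟩
      exact ⟨n, by rw [huv]; exact hn⟩
    · rintro ⟨n, hn⟩
      obtain ⟨T, hT0, hTB, hT⟩ := key p u h1 h2 h3 hu1 hu2 hgood
      by_cases hlt : n < tow k (size p)
      · exact ⟨n, hlt, by rw [← huv]; exact hn⟩
      · refine ⟨n % T, (Nat.mod_lt _ hT0).trans_le hTB, ?_⟩
        have h4 := hT n (not_lt.1 hlt) hn 0
        rw [zero_mul, add_zero] at h4
        rw [← huv]
        exact h4

end Pool.Agent.Results.MP_8d13b5_lc.RatioRank
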