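import Pool.Agent.Work.MP_8d13b5_lc.Sc.Decide
import Pool.Agent.Work.MP_8d13b5_lc.Sc.Cone
import Pool.Agent.Work.MP_8d13b5_lc.Sc.Main

set_option autoImplicit false

namespace Pool.Agent.Results.MP_8d13b5_lc.SectorFamilies

open Pool.Agent.Work.MP_8d13b5_lc Polynomial NumberField

/-- `u` is the sequence with data `p = ((c_1, ..., c_d), (u_0, ..., u_(d-1)))`:
`d ≥ 1`, `c_d ≠ 0` and `u_(n+d) = c_1 u_(n+d-1) + ... + c_d u_n` -/
def IsSeq (p : List ℤ × List ℤ) (u : ℕ → ℤ) : Prop :=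
  p.1.length = p.2.length ∧ 1 ≤ p.1.length ∧ p.1.getD (p.1.length - 1) 0 ≠ 0 ∧
    (∀ i, i < p.1.length → u i = p.2.getD i 0) ∧
    ∀ n : ℕ, u (n + p.1.length) =
      ∑ j ∈ Finset.range p.1.length, p.1.getD j 0 * u (n + p.1.length - 1 - j)

/-- `z` is a characteristic root: `z ^ d = c_1 z ^ (d - 1) + ... + c_d` -/
def IsCharRoot (c : List ℤ) (z : ℂ) : Prop :=
  z ^ c.length = ∑ j ∈ Finset.range c.length, ((c.getD j 0 : ℤ) : ℂ) * z ^ (c.length - 1 - j)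

/-- the order plus the absolute values of all entries of the data -/
def size (p : List ℤ × List ℤ) : ℕ :=
  p.1.length + (p.1.map Int.natAbs).sum + (p.2.map Int.natAbs).sum

/-- the number of binary digits of `size p + 2` -/
def lsize (p : List ℤ × List ℤ) : ℕ := Nat.log 2 (size p + 2) + 1

/-- `s` satisfies the linear recurrence with characteristic polynomial `f`, whose coefficients
are read through the ring homomorphism `ψ` -/
def Rec {A B : Type} [CommRing A] [CommRing B] (ψ : A →+* B) (f : A[X]) (s : ℕ → B) : Prop :=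
  ∀ n, ∑ i ∈ Finset.range (f.natDegree + 1), ψ (f.coeff i) * s (n + i) = 0

/-- the restriction of an embedding to the ring of integers -/
def res {K : Type} [Field K] (φ : K →+* ℂ) : 𝓞 K →+* ℂ := φ.comp (algebraMap (𝓞 K) K)

/-- The condition `P` (Padé approximants). -/
def Pade {K : Type} [Field K] [NumberField K] (β β' e : 𝓞 K) (l m : ℕ)
    (a w : (K →+* ℂ) → ℝ) : Prop :=
  1 ≤ l ∧ l < 2 * m ∧ ∏ φ : K →+* ℂ,
      max ((32 * a φ) ^ (2 * m) * ‖φ e‖ ^ (2 * l) * (max ‖φ β‖ ‖φ β'‖) ^ (2 * m - l))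
        ((128 * w φ) ^ (2 * m) * (max ‖φ β‖ ‖φ β'‖) ^ l) ≤ ∏ φ : K →+* ℂ, ‖φ β'‖ ^ (2 * m)

/-- The condition `S` (interpolation determinants): at each embedding with `E φ > 1` the numbers
`β` and `β'` are close, `E φ * |β - β'| ≤ |β'|`, and `w` and `D` are small in comparison with
`β'`; in the last inequality, the closeness at the embeddings and modulo `D ^ m` together outweigh
the size of `β`, `β'` and `a`. -/
def Sector {K : Type} [Field K] [NumberField K] (g : (𝓞 K)[X]) (β β' D : 𝓞 K) (l m σ ν : ℕ)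
    (a w E : (K →+* ℂ) → ℝ) : Prop :=
  1 ≤ σ ∧ 1 ≤ m ∧ m * σ ≤ l * ν ∧
    (∀ φ, 1 ≤ E φ ∧ (∀ z : ℂ, g.eval₂ (res φ) z = 0 → ‖z‖ ≤ a φ) ∧
      (E φ = 1 ∨ (E φ * ‖φ β - φ β'‖ ≤ ‖φ β'‖ ∧
        E φ ^ σ * (w φ * ‖φ D‖ ^ l) ^ ν ≤ ‖φ β'‖ ^ ν))) ∧
    ∏ φ : K →+* ℂ, (4 * w φ) ≤ ∏ φ : K →+* ℂ, ‖φ β‖ ∧
    ∏ φ : K →+* ℂ, (4 * w φ) ≤ ∏ φ : K →+* ℂ, ‖φ β'‖ ∧
    ∏ φ : K →+* ℂ, ((32 * a φ) ^ (4 * σ * ν) * max 1 (max ‖φ β‖ ‖φ β'‖)) ≤
      ∏ φ : K →+* ℂ, (‖φ D‖ ^ (2 * σ * m) * E φ ^ (2 * σ))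

/-- **Families.** Monic polynomials `f`, `g`, `q` with nonzero constant terms over the ring of
integers of a number field `K`, integers `β ≠ β'` of `K` with `β' = β + D ^ m e`, where `D` is
coprime to `β'`. The roots of `f` at the embedding `φ` are at most `a φ` in absolute value, those of
`q` at most `w φ`, and `β`, `β'` are close to each other in the sense of `Sector` or `Pade`. -/
structure Family (K : Type) [Field K] [NumberField K] where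
  f : (𝓞 K)[X]
  g : (𝓞 K)[X]
  q : (𝓞 K)[X]
  c : 𝓞 K
  β : 𝓞 K
  β' : 𝓞 K
  D : 𝓞 K
  e : 𝓞 K
  l : ℕ
  m : ℕ
  σ : ℕ
  ν : ℕ
  a : (K →+* ℂ) → ℝ
  w : (K →+* ℂ) → ℝ
  E : (K →+* ℂ) → ℝ
  monic : f.Monic ∧ g.Monic ∧ q.Monic
  coeff : f.coeff 0 ≠ 0 ∧ g.coeff 0 ≠ 0 ∧ q.coeff 0 ≠ 0
  c_ne : c ≠ 0
  one_le : 1 ≤ ν
  ne : β ≠ β'
  diff : β' - β = D ^ m * e
  coprime : IsCoprime D β'
  roots : ∀ φ, 1 ≤ a φ ∧ 1 ≤ w φ ∧ (∀ z : ℂ, f.eval₂ (res φ) z = 0 → ‖z‖ ≤ a φ) ∧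
    ∀ z : ℂ, q.eval₂ (res φ) z = 0 → ‖z‖ ≤ w φ
  close : Sector g β β' D l m σ ν a w E ∨ Pade β β' e l m a w

section

variable {K : Type} [Field K] [NumberField K]

/-- the polynomial whose roots are `β α`, `β' γ`, `D ^ l δ` with `f(α) = g(γ) = q(δ) = 0` -/
noncomputable def Family.poly (F : Family K) : (𝓞 K)[X] :=
  F.f.scaleRoots F.β * F.g.scaleRoots F.β' * F.q.scaleRoots (F.D ^ F.l)

/-- the conjugates of `c`, `β`, `β'`, `e`, `D ^ l` are at most `2 ^ A` in absolute value -/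
def Family.Bounded (F : Family K) (A : ℕ) : Prop :=
  ∀ φ : K →+* ℂ, ‖φ F.c‖ ≤ 2 ^ A ∧ ‖φ F.β‖ ≤ 2 ^ A ∧ ‖φ F.β'‖ ≤ 2 ^ A ∧ ‖φ F.e‖ ≤ 2 ^ A ∧
    ‖φ F.D‖ ^ F.l ≤ 2 ^ A

/-- the roots of `F.poly` are `c` times `T`-th powers of characteristic roots -/
def Family.Fits (F : Family K) (p : List ℤ × List ℤ) (T : ℕ) : Prop :=
  F.f.natDegree + F.g.natDegree + F.q.natDegree ≤ p.1.length ∧
    ∀ (φ : K →+* ℂ) (z : ℂ), F.poly.eval₂ (res φ) z = 0 →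
      ∃ x : ℂ, IsCharRoot p.1 x ∧ z = φ F.c * x ^ T

/-- `y_n = β^n s_n + β'^n t_n + D^(l n) r_n`, where `s`, `t`, `r` satisfy the recurrences with
characteristic polynomials `f`, `g`, `q` -/
def Family.Parts (F : Family K) (y s t r : ℕ → K) : Prop :=
  Rec (algebraMap (𝓞 K) K) F.f s ∧ Rec (algebraMap (𝓞 K) K) F.g t ∧
    Rec (algebraMap (𝓞 K) K) F.q r ∧
    ∀ n, y n = (F.β : K) ^ n * s n + (F.β' : K) ^ n * t n + ((F.D : K) ^ F.l) ^ n * r n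

end

/-- For some `T ≤ B` and all `j < T`, the subsequence `c^n u_(j + T n)`, `n = 0, 1, ...`, has a
decomposition into parts given by a family of size at most `B`, and one of the three parts
has no zero `n ≥ B`. -/
def InClass (B : ℕ) (p : List ℤ × List ℤ) (u : ℕ → ℤ) : Prop :=
  ∃ T, 1 ≤ T ∧ T ≤ B ∧ ∀ j < T, ∃ (K : Type) (_ : Field K) (_ : NumberField K) (F : Family K)
    (s t r : ℕ → K), Module.finrank ℚ K ≤ B ∧ F.ν ≤ B ∧ F.Bounded B ∧ F.Fits p T ∧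
      F.Parts (fun n => (F.c : K) ^ n * (u (j + T * n) : K)) s t r ∧
      ((∀ n, B ≤ n → s n ≠ 0) ∨ (∀ n, B ≤ n → t n ≠ 0) ∨ (∀ n, B ≤ n → r n ≠ 0))

theorem rec_iff {A B : Type} [CommRing A] [CommRing B] [Nontrivial B] (ψ : A →+* B) {f : A[X]}
    (hf : f.Monic) (s : ℕ → B) : Rec ψ f s ↔ Pd.Sol (f.map ψ) s := by
  unfold Rec Pd.Sol
  rw [hf.natDegree_map]
  simp only [coeff_map]

theorem pow_four (a : ℝ) (σ ν : ℕ) :
    (32 * a) ^ (4 * σ * ν) = (1024 * a ^ 2) ^ (2 * σ * ν) := by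
  rw [show 4 * σ * ν = 2 * (2 * σ * ν) by ring, pow_mul]
  congr 1
  ring

theorem Family.fam {K : Type} [Field K] [NumberField K] (F : Family K) :
    Sc.SFam K F.f F.g F.q F.β F.β' F.D F.e F.l F.m F.σ F.ν F.a F.w F.E ∨
      Pd.Fam K F.f F.g F.q F.β F.β' F.D F.e F.l F.m F.a F.w := by
  rcases F.close with ⟨h1, h2, h3, h4, h5, h6, h7⟩ | ⟨h1, h2, h3⟩
  · exact Or.inl ⟨F.monic, F.coeff, ⟨h1, F.one_le, h2, h3⟩, F.ne, F.diff, F.coprime,
      fun φ => ⟨(F.roots φ).1, (F.roots φ).2.1, (h4 φ).1, (F.roots φ).2.2.1, (h4 φ).2.1,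
        (F.roots φ).2.2.2⟩, fun φ => (h4 φ).2.2, ⟨h5, h6⟩, by simpa only [pow_four] using h7⟩
  · exact Or.inr ⟨F.monic, F.coeff, ⟨h1, h2⟩, F.ne, F.diff, F.coprime, F.roots, h3⟩

theorem Family.parts {K : Type} [Field K] [NumberField K] (F : Family K) {y : ℕ → K}
    (hy : Rec (algebraMap (𝓞 K) K) F.poly y) : ∃ s t r : ℕ → K, F.Parts y s t r := by
  have hP : F.poly.Monic := ((Pd.monic_scaleRoots F.monic.1 _).mul
    (Pd.monic_scaleRoots F.monic.2.1 _)).mul (Pd.monic_scaleRoots F.monic.2.2 _)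
  have h := (rec_iff _ hP _).1 hy
  rcases F.fam with H | H
  · obtain ⟨s, t, r, hs, ht, hr, h⟩ := H.parts h
    exact ⟨s, t, r, (rec_iff _ F.monic.1 s).2 hs, (rec_iff _ F.monic.2.1 t).2 ht,
        (rec_iff _ F.monic.2.2 r).2 hr, h⟩
  · obtain ⟨s, t, r, hs, ht, hr, h⟩ := H.parts h
    exact ⟨s, t, r, (rec_iff _ F.monic.1 s).2 hs, (rec_iff _ F.monic.2.1 t).2 ht,
        (rec_iff _ F.monic.2.2 r).2 hr, h⟩

theorem bound {K : Type} [Field K] [NumberField K] (F : Family K) (A : ℕ)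
    (p : List ℤ × List ℤ) (u : ℕ → ℤ) (T j : ℕ) (s t r : ℕ → K) (hA : F.Bounded A)
    (hu : IsSeq p u) (hj : j < T) (hF : F.Fits p T)
    (hP : F.Parts (fun n => (F.c : K) ^ n * (u (j + T * n) : K)) s t r) (n : ℕ)
    (hn : 220 * F.ν * p.1.length ^ 3 * Module.finrank ℚ K * (A + T * lsize p) < n) (ρ : 𝓞 K)
    (hρ : ∀ φ : K →+* ℂ, ‖φ ρ‖ ≤ (2 * F.w φ) ^ n)
    (h0 : (F.c : K) ^ n * (u (j + T * n) : K) = ((F.D : K) ^ F.l) ^ n * ρ) :
    s n = 0 ∧ t n = 0 ∧ r n = ρ := by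
  obtain ⟨hs, ht, hr, hy⟩ := hP
  rcases F.fam with H | H
  · refine Sc.data_bound H (A := A) (fun φ => ?_) hu (T := T) (j := j) (by omega) hj hF.1 hF.2
      ((rec_iff _ F.monic.1 s).1 hs) ((rec_iff _ F.monic.2.1 t).1 ht)
      ((rec_iff _ F.monic.2.2 r).1 hr) hy hn hρ h0
    obtain ⟨h1, h2, h3, h4, h5⟩ := hA φ
    refine ⟨h1, h2, h3, ?_⟩
    have e1 : φ ((F.D ^ F.l : 𝓞 K) : K) = φ F.D ^ F.l := by
      show φ (algebraMap (𝓞 K) K (F.D ^ F.l)) = _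
      rw [map_pow, map_pow]
    rw [e1, norm_pow]
    exact h5
  · refine Pd.data_bound H (A := A) (fun φ => ?_) hu (T := T) (j := j) (by omega) hj hF.1 hF.2
      ((rec_iff _ F.monic.1 s).1 hs) ((rec_iff _ F.monic.2.1 t).1 ht)
      ((rec_iff _ F.monic.2.2 r).1 hr) hy (lt_of_le_of_lt ?_ hn) hρ h0
    · obtain ⟨h1, h2, h3, h4, h5⟩ := hA φ
      exact ⟨h1, h2, h3, h4⟩
    · have h1 : 25 ≤ 220 * F.ν := by
        have := F.one_le
        omega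
      exact Nat.mul_le_mul_right _ (Nat.mul_le_mul_right _ (Nat.mul_le_mul_right _ h1))

theorem class_bound (B : ℕ) (p : List ℤ × List ℤ) (u : ℕ → ℤ) (hu : IsSeq p u)
    (hC : InClass B p u) (n : ℕ) (hn : Sc.bd (p, B) ≤ n) : u n ≠ 0 := by
  intro h0
  obtain ⟨T, hT1, hTB, hT⟩ := hC
  obtain ⟨K, iF, iN, F, s, t, r, hk, hν, hB, hF, hP, hz⟩ := hT (n % T) (Nat.mod_lt _ hT1)
  obtain ⟨h1, h2⟩ := Sc.bd_large (B := B) (p := p) hTB hk hν hn hT1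
  have h3 : u (n % T + T * (n / T)) = 0 := by rw [Nat.mod_add_div]; exact h0
  obtain ⟨hs, ht, hr⟩ := bound F B p u T (n % T) s t r hB hu (Nat.mod_lt _ hT1) hF hP (n / T) h1 0
    (fun φ => by
      have := (F.roots φ).2.1
      simp only [map_zero, norm_zero]
      positivity) (by rw [h3]; simp)
  rcases hz with hz | hz | hz
  · exact hz _ h2 hs
  · exact hz _ h2 ht
  · exact hz _ h2 (by rw [hr]; simp)

/-- **The Skolem Problem in sectors.**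

(1) Let `u` be an integer linear recurrence sequence of order `d` with data `p`, and let the sequence
`c^n u_(j + T n)`, `n = 0, 1, ...`, satisfy the recurrence with characteristic polynomial `F.poly` of a
family `F` over `K` that fits `p`, `T`. Then `c^n u_(j + T n) = β^n s_n + β'^n t_n + D^(l n) r_n`
with solutions `s`, `t`, `r` of the recurrences of `f`, `g`, `q`, and for all
`n > 220 ν d^3 [K : ℚ] (A + T lsize p)`, where `2 ^ A` bounds the conjugates of `c`, `β`, `β'`, `e`,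
`D ^ l`: if `u_(j + T n) = 0` then `s_n = t_n = r_n = 0`. More generally, if
`c^n u_(j + T n) = D^(l n) ρ` for an integer `ρ` of `K` with `|φ(ρ)| ≤ (2 w_φ)^n` at all
embeddings `φ`, then `s_n = t_n = 0`, `r_n = ρ`.

(2) One primitive recursive algorithm decides, given the data of `u` and a number `B`, whether `u`
has a zero, correctly for all `u` in `InClass B`.

(3) For all `K`, `f`, `g`, `ν` and `H` there are `ε > 0` and `N₀` such that all `q` and `β ≠ β'` with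
`N ≤ |β'| ≤ H N`, `|β - β'| ≤ ε N` and with all roots of `q` at most `N ^ (1 - 1 / ν)` in absolute
value, at all embeddings, for some `N ≥ N₀`, give a family with `c = D = 1`.

(4) Explicitly: let `f` be a monic integer polynomial with nonzero constant term and all roots
at most `a` in absolute value, `C = (32 a) ^ (2 ν)`, `δ = √(-d)`, `d ≥ 1`, `y ≠ 0`, `ρ ≠ 0`,
`C ^ 2 ≤ |x + y δ|`, `2 C ^ 3 |y δ| ≤ |x + y δ|`, `|ρ| ^ ν ≤ |x + y δ| ^ (ν - 1)`, and let `u` be an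
integer linear recurrence sequence of order `k` whose characteristic polynomial has the roots
`α (x + y δ)`, `α (x - y δ)` for the roots `α` of `f`, and `ρ`. If the root `ρ` occurs in `u`
(that is, `u` does not satisfy the recurrence with the other roots only), then `u_n ≠ 0` for all
`n > 880 ν k^3 lsize p`. -/
theorem result :
    (∀ (K : Type) [Field K] [NumberField K] (F : Family K) (A : ℕ) (p : List ℤ × List ℤ)
      (u : ℕ → ℤ) (T j : ℕ), F.Bounded A → IsSeq p u → j < T → F.Fits p T →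
      Rec (algebraMap (𝓞 K) K) F.poly (fun n => (F.c : K) ^ n * (u (j + T * n) : K)) →
      ∃ s t r : ℕ → K, F.Parts (fun n => (F.c : K) ^ n * (u (j + T * n) : K)) s t r ∧
        ∀ n, 220 * F.ν * p.1.length ^ 3 * Module.finrank ℚ K * (A + T * lsize p) < n →
          ∀ ρ : 𝓞 K, (∀ φ : K →+* ℂ, ‖φ ρ‖ ≤ (2 * F.w φ) ^ n) →
            (F.c : K) ^ n * (u (j + T * n) : K) = ((F.D : K) ^ F.l) ^ n * ρ →
              s n = 0 ∧ t n = 0 ∧ r n = ρ) ∧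
    (∃ M : (List ℤ × List ℤ) × ℕ → Bool, Primrec M ∧
      ∀ (B : ℕ) (p : List ℤ × List ℤ) (u : ℕ → ℤ), IsSeq p u → InClass B p u →
        (M (p, B) = true ↔ ∃ n, u n = 0)) ∧
    (∀ (K : Type) [Field K] [NumberField K] (f g : (𝓞 K)[X]) (H : ℝ) (ν : ℕ), f.Monic →
      g.Monic → f.coeff 0 ≠ 0 → g.coeff 0 ≠ 0 → 1 ≤ H → 1 ≤ ν →
      ∃ ε N₀ : ℝ, 0 < ε ∧ ∀ (N : ℝ) (q : (𝓞 K)[X]) (β β' : 𝓞 K), N₀ ≤ N → q.Monic →
        q.coeff 0 ≠ 0 → β ≠ β' →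
        (∀ φ : K →+* ℂ, N ≤ ‖φ β'‖ ∧ ‖φ β'‖ ≤ H * N ∧ ‖φ β - φ β'‖ ≤ ε * N ∧
          ∀ z : ℂ, q.eval₂ (res φ) z = 0 → ‖z‖ ^ ν ≤ N ^ (ν - 1)) →
        ∃ F : Family K, F.f = f ∧ F.g = g ∧ F.q = q ∧ F.c = 1 ∧ F.β = β ∧ F.β' = β' ∧
          F.D = 1 ∧ F.ν = ν) ∧
    (∀ (f : ℤ[X]) (a : ℝ) (ν : ℕ) (d x y ρ : ℤ) (δ : ℂ) (p : List ℤ × List ℤ) (u : ℕ → ℤ),
      f.Monic → 1 ≤ f.natDegree → f.coeff 0 ≠ 0 → 1 ≤ a → (∀ z : ℂ, aeval z f = 0 → ‖z‖ ≤ a) →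
      1 ≤ ν → 1 ≤ d → δ ^ 2 = -d → y ≠ 0 → ρ ≠ 0 →
      ((32 * a) ^ (2 * ν)) ^ 2 ≤ ‖(x : ℂ) + y * δ‖ →
      2 * ((32 * a) ^ (2 * ν)) ^ 3 * ‖y * δ‖ ≤ ‖(x : ℂ) + y * δ‖ →
      |(ρ : ℝ)| ^ ν ≤ ‖(x : ℂ) + y * δ‖ ^ (ν - 1) → IsSeq p u →
      (X ^ p.1.length -
          ∑ j ∈ Finset.range p.1.length, C ((p.1.getD j 0 : ℤ) : ℂ) * X ^ (p.1.length - 1 - j) =
        (f.map (algebraMap ℤ ℂ)).scaleRoots (x + y * δ) *
          (f.map (algebraMap ℤ ℂ)).scaleRoots (x - y * δ) * (X - C (ρ : ℂ))) →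
      ¬ Rec (RingHom.id ℂ) ((f.map (algebraMap ℤ ℂ)).scaleRoots (x + y * δ) *
          (f.map (algebraMap ℤ ℂ)).scaleRoots (x - y * δ)) (fun n => (u n : ℂ)) →
      ∀ n, 880 * ν * p.1.length ^ 3 * lsize p < n → u n ≠ 0) := by
  refine ⟨?_, ?_, ?_, ?_⟩
  · intro K _ _ F A p u T j h1 h2 h3 h4 h5
    obtain ⟨s, t, r, hparts⟩ := F.parts h5
    exact ⟨s, t, r, hparts, fun n h6 ρ h7 h8 =>
      bound F A p u T j s t r h1 h2 h3 h4 hparts n h6 ρ h7 h8⟩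
  · exact Sc.decide_of_bd InClass class_bound
  · intro K _ _ f g H ν hf hg hf0 hg0 hH hν
    obtain ⟨a, ε, N₀, hε, h⟩ := Sc.cone hf hg hf0 hg0 hH hν
    refine ⟨ε, N₀, hε, fun N q β β' hN hq hq0 hne hφ => ?_⟩
    obtain ⟨σ, w, E, H'⟩ := h N hN q β β' hq hq0 hne hφ
    exact ⟨⟨f, g, q, 1, β, β', 1, β' - β, σ, 1, σ, ν, fun _ => a, fun _ => w, fun _ => E, H'.monic,
      H'.coeff, one_ne_zero, hν, H'.ne, H'.diff, H'.coprime, fun φ => ⟨(H'.roots φ).1,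
        (H'.roots φ).2.1, (H'.roots φ).2.2.2.1, (H'.roots φ).2.2.2.2.2⟩,
      Or.inl ⟨H'.exps.1, H'.exps.2.2.1, H'.exps.2.2.2, fun φ => ⟨(H'.roots φ).2.2.1,
        (H'.roots φ).2.2.2.2.1, H'.close φ⟩, H'.small.1, H'.small.2,
        by simpa only [pow_four] using H'.large⟩⟩, rfl, rfl, rfl, rfl, rfl, rfl, rfl, rfl⟩
  · intro f a ν d x y ρ δ p u hf hdeg hf0 ha1 ha hν hd hδ hy0 hρ0 hb1 hb2 hρ hu hχ hnot n hn
    have hC : (1024 : ℝ) ≤ 1024 * a ^ 2 := by nlinarith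
    have hpow : (32 * a) ^ (2 * ν) = (1024 * a ^ 2) ^ ν := by
      rw [pow_mul]
      congr 1
      ring
    rw [hpow] at hb1 hb2
    obtain ⟨σ, hσ, hc1, hc2⟩ := Sc.exists_sigma (C := 1024 * a ^ 2) (b := ‖(x : ℂ) + y * δ‖)
      (t := 2 * |(y : ℝ)| * ‖δ‖) (R := |(ρ : ℝ)|) (ν := ν) (by linarith) (by positivity)
      (abs_nonneg _) hν (by rw [mul_comm 2 ν, pow_mul]; exact hb1) (by
        rw [mul_comm 3 ν, pow_mul]
        refine le_trans (le_of_eq ?_) hb2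
        rw [norm_mul, Complex.norm_intCast]
        ring) hρ
    refine Sc.quad hd hδ hf hf0 hdeg ha1 ha (D := 1) (z := y) (l := σ) (m := 1) hσ hν le_rfl
      (by rw [one_mul]; exact Nat.le_mul_of_pos_right _ hν) (by ring) hy0 hρ0 isCoprime_one_left
      hc1 (by simpa using hc2) hu ?_ ?_ hn
    · rw [Int.cast_one, one_pow, one_mul, ← hχ, Pd.chi, Polynomial.map_sub, Polynomial.map_pow,
        map_X, Polynomial.map_sum]
      congr 1
      refine Finset.sum_congr rfl fun j _ => ?_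
      rw [Polynomial.map_mul, Polynomial.map_pow, map_X, Polynomial.map_C]
      rfl
    · intro h
      apply hnot
      intro n
      exact h n

end Pool.Agent.Results.MP_8d13b5_lc.SectorFamilies
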